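import Mathlib
import Pool.Graph.R_pool_sql_team_39128cda.H.MP_3d411c_an.G

/-!
# MP_3d411c_an: a radical Banach algebra with real semigroups, none of them norm-measurable

There is a commutative radical Banach algebra `R` which contains a real semigroup `(a^t)` with
`a^t ≠ 0` for all `t` and `a^1 ∈ [a^2 R]^-`, but in which every real semigroup with Lebesgue
measurable norm is zero, even every locally bounded semigroup indexed by the positive rationals is
zero, and every real semigroup bounded on some interval is eventually zero. The algebra (the package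
`Pkg`) and its semigroup are those of the earlier run 39128cda and are imported; `no_bdd` is its
`Pkg.no_cont` with continuity on `(0,∞)` replaced by boundedness at rational multiples of one time.
-/

set_option autoImplicit false
set_option linter.unusedSectionVars false

namespace Pool.Agent.Results.MP_3d411c_an.NormMeasurable

open Filter Topology Finset MeasureTheory Pool.Agent.H.MP_3d411c_an

section
variable {B : Type} [NormedCommRing B] [NormedAlgebra ℂ B] [CompleteSpace B] {δ : ℚ≥0 → B}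
  {c : ℚ≥0 → B →L[ℂ] ℂ}

/-- a rational semigroup bounded on `[τ, 4τ]` vanishes at `5τ` -/
theorem no_bdd (h : Pkg δ c) (b : ℚ → B) (hb0 : ∀ t, c 0 (b t) = 0)
    (hb : ∀ s t, 0 < s → 0 < t → b (s + t) = b s * b t) (τ : ℚ) (hτ : 0 < τ)
    (hne : b (5 * τ) ≠ 0) (M : ℝ) (hM : ∀ t ∈ Set.Icc τ (4 * τ), ‖b t‖ ≤ M) : False := by
  have hM0 : 0 ≤ M := (norm_nonneg _).trans (hM τ ⟨le_rfl, by linarith⟩)
  obtain ⟨s0, hs0, hs1⟩ : ∃ s ≤ 1, c s (b (5 * τ)) ≠ 0 := by
    by_contra h1
    push Not at h1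
    exact hne (h.ext _ h1)
  obtain ⟨c0, hc0⟩ : ∃ c0, c0 = ‖c s0 (b (5 * τ))‖ := ⟨_, rfl⟩
  have hc1 : 0 < c0 := hc0 ▸ norm_pos_iff.2 hs1
  obtain ⟨n0, hn0⟩ := exists_nat_gt (max M ((M + 1) / c0))
  obtain ⟨n, hn⟩ : ∃ n, n = max n0 (lev s0) := ⟨_, rfl⟩
  have hn1 : (n0 : ℝ) ≤ n := by exact_mod_cast hn ▸ le_max_left _ _
  have hm1 : M ≤ n + 1 := by linarith [le_max_left M ((M + 1) / c0)]
  have hm2 : M + 1 < (n + 1) * c0 := by
    rw [← div_lt_iff₀ hc1]; linarith [le_max_right M ((M + 1) / c0)]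
  obtain ⟨k0, rfl⟩ := ((lev_spec s0).mono (hn ▸ le_max_right _ _ : lev s0 ≤ n)).exists_pt
  have hk0 : k0 ≤ NN n := by
    have := NN_pos n
    rw [pt, div_le_one (by positivity)] at hs0
    exact_mod_cast hs0
  have hd := dl_pos n
  have hW0 := W_one n
  have hW : W (n + 1) = W n + (2 * (n + 1) ^ 3 + (n + 1) ^ 2 / dl n) := rfl
  have hWpos : 0 < W (n + 1) := by linarith [W_one (n + 1)]
  have herr : ∀ x y : B, ‖x‖ ≤ M → ‖y‖ ≤ M → (W (n + 1))⁻¹ * ‖x‖ * ‖y‖ ≤
      (W (n + 1))⁻¹ * (n + 1) ^ 2 := by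
    intro x y hx hy
    rw [mul_assoc, sq]
    gcongr
    · exact hx.trans hm1
    · exact hy.trans hm1
  have he1 : (W (n + 1))⁻¹ * (n + 1) ^ 2 ≤ dl n := by
    rw [inv_mul_le_iff₀ hWpos, ← div_le_iff₀ hd, hW]
    have : (0 : ℝ) ≤ 2 * (n + 1) ^ 3 := by positivity
    linarith
  have he2 : (W (n + 1))⁻¹ * (n + 1) ^ 2 ≤ ((n : ℝ) + 1)⁻¹ := by
    rw [inv_mul_le_iff₀ hWpos, ← div_eq_mul_inv, le_div_iff₀ (by positivity), hW]
    have : (0 : ℝ) ≤ (n + 1) ^ 2 / dl n := by positivity
    have : (0 : ℝ) ≤ (n + 1) ^ 3 := by positivity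
    nlinarith
  obtain ⟨T, hT⟩ : ∃ T : ℕ → ℚ, T = fun i : ℕ => i * (τ / (NN n + 1)) := ⟨_, rfl⟩
  have hT1 : ∀ i, NN n + 1 ≤ i → i ≤ 4 * (NN n + 1) → T i ∈ Set.Icc τ (4 * τ) := by
    intro i h1 h2
    have h1' : (NN n + 1 : ℚ) ≤ i := by exact_mod_cast h1
    have h2' : (i : ℚ) ≤ 4 * (NN n + 1) := by exact_mod_cast h2
    have h3 : (0 : ℚ) < NN n + 1 := by positivity
    rw [hT]
    constructor
    · simp only
      rw [← mul_div_assoc, le_div_iff₀ h3]; nlinarith
    · simp only
      rw [← mul_div_assoc, div_le_iff₀ h3]; nlinarith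
  have hT2 : ∀ i j, T (i + j) = T i + T j := by intro i j; rw [hT]; push_cast; ring
  apply dl_spec n fun i k => if NN n + 1 ≤ i ∧ i ≤ 4 * (NN n + 1) ∧ k ≤ NN n then
    c (pt n k) (b (T i)) else 0
  refine ⟨fun i k => ?_, fun i => ?_, fun i h1 h2 => ?_, fun i i' k h1 h2 h3 h4 => ?_⟩
  · beta_reduce
    split_ifs with h1
    · exact (h.c_le (pt_le h1.2.2) _).trans ((hM _ (hT1 i h1.1 h1.2.1)).trans hm1)
    · simp only [norm_zero]; positivity
  · simp [pt, hb0]
  · by_contra h3
    push Not at h3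
    have h4 := hT1 i h1 h2
    have h5 : 5 * τ - T i ∈ Set.Icc τ (4 * τ) := ⟨by linarith [h4.2], by linarith [h4.1]⟩
    have h6 := hb _ _ (hτ.trans_le h5.1) (hτ.trans_le h4.1)
    rw [sub_add_cancel] at h6
    have h7 := ((h.approx n k0 (b (5 * τ - T i)) (b (T i)) hk0).trans
      (herr _ _ (hM _ h5) (hM _ h4))).trans he2
    rw [← h6] at h7
    have h8 : ‖∑ p ∈ antidiagonal k0, c (pt n p.1) (b (5 * τ - T i)) * c (pt n p.2) (b (T i))‖ ≤
        M * ((n : ℝ) + 1)⁻¹ := by
      refine (norm_sum_le _ _).trans ?_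
      calc _ ≤ ∑ p ∈ antidiagonal k0, ‖c (pt n p.1) (b (5 * τ - T i))‖ * ((n : ℝ) + 1)⁻¹ := by
            refine sum_le_sum fun p hp => ?_
            have := mem_antidiagonal.1 hp
            have h9 := h3 p.2 (by omega)
            rw [if_pos ⟨h1, h2, by omega⟩] at h9
            rw [norm_mul]
            exact mul_le_mul_of_nonneg_left h9.le (norm_nonneg _)
        _ ≤ _ := by
            rw [← sum_mul]
            refine mul_le_mul_of_nonneg_right (le_trans ?_ (hM _ h5)) (by positivity)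
            rw [Nat.sum_antidiagonal_eq_sum_range_succ fun x _ => ‖c (pt n x) (b (5 * τ - T i))‖,
              ← sum_image (f := fun s => ‖c s (b (5 * τ - T i))‖) (pt_inj n).injOn]
            refine h.sum_le _ _ fun s hs => ?_
            obtain ⟨k, hk, rfl⟩ := mem_image.1 hs
            exact pt_le (by have := mem_range.1 hk; omega)
    have h9 : c0 ≤ ((n : ℝ) + 1)⁻¹ + M * ((n : ℝ) + 1)⁻¹ := by
      rw [hc0]
      refine le_trans ?_ (add_le_add h7 h8)
      exact (le_of_eq (by rw [sub_add_cancel])).trans (norm_add_le _ _)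
    rw [← one_add_mul, ← div_eq_mul_inv, le_div_iff₀ (by positivity)] at h9
    linarith
  · have a1 := hT1 i h1 (by omega)
    have a2 := hT1 i' h2 (by omega)
    beta_reduce
    rw [if_pos ⟨by omega, h3, h4⟩, hT2, hb _ _ (hτ.trans_le a1.1) (hτ.trans_le a2.1)]
    refine le_trans (le_of_eq ?_) (((h.approx n k _ _ h4).trans
      (herr _ _ (hM _ a1) (hM _ a2))).trans he1)
    congr 2
    refine sum_congr rfl fun p hp => ?_
    have := mem_antidiagonal.1 hp
    rw [if_pos ⟨h1, by omega, by omega⟩, if_pos ⟨h2, by omega, by omega⟩]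

/-- a real semigroup bounded on `[τ, 4τ]` vanishes at `5τ` -/
theorem no_bdd_real (h : Pkg δ c) (b : ℝ → B) (hb0 : ∀ t, c 0 (b t) = 0)
    (hb : ∀ s t, 0 < s → 0 < t → b (s + t) = b s * b t) (τ : ℝ) (hτ : 0 < τ) (M : ℝ)
    (hM : ∀ t ∈ Set.Icc τ (4 * τ), ‖b t‖ ≤ M) : b (5 * τ) = 0 := by
  by_contra hne
  refine no_bdd h (fun q => b (q * τ)) (fun _ => hb0 _) (fun s t hs ht => ?_) 1 one_pos ?_ M
    fun t ht => hM _ ⟨?_, ?_⟩
  · rw [← hb _ _ (by have : (0 : ℝ) < s := by exact_mod_cast hs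
                     positivity) (by have : (0 : ℝ) < t := by exact_mod_cast ht
                                     positivity)]
    push_cast
    ring_nf
  · simpa using hne
  · have : (1 : ℝ) ≤ t := by exact_mod_cast ht.1
    nlinarith
  · have : (t : ℝ) ≤ 4 := by
      have := ht.2
      rw [mul_one] at this
      exact_mod_cast this
    nlinarith

end

/-- a submultiplicative function with measurable values is bounded on compact sets -/
theorem bdd_of_meas (f : ℝ → ℝ) (f0 : ∀ t, 0 ≤ f t)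
    (hf : ∀ s t, 0 < s → 0 < t → f (s + t) ≤ f s * f t)
    (hm : AEMeasurable f (volume.restrict (Set.Ioi 0))) (α β : ℝ) (hα : 0 < α) :
    ∃ M, ∀ t ∈ Set.Icc α β, f t ≤ M := by
  by_contra hcon
  push Not at hcon
  choose t ht1 ht2 using fun n : ℕ => hcon ((n : ℝ) ^ 2)
  set μ := volume.restrict (Set.Ioo 0 β) with hμ
  have hmμ : AEMeasurable f μ := hm.mono_measure (Measure.restrict_mono
    (fun x hx => hx.1) le_rfl)
  let E : ℕ → Set ℝ := fun n => {s | (n : ℝ) < f s}
  have hE : ∀ n, NullMeasurableSet (E n) μ := fun n =>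
    hmμ.nullMeasurable measurableSet_Ioi
  have anti : Antitone E := fun m n hmn s hs => by
    have hs' : (n : ℝ) < f s := hs
    have : (m : ℝ) ≤ n := by exact_mod_cast hmn
    show (m : ℝ) < f s
    linarith
  have lim := tendsto_measure_iInter_atTop hE anti ⟨0, by
    refine ne_of_lt (lt_of_le_of_lt (measure_mono (Set.subset_univ _)) ?_)
    rw [hμ, Measure.restrict_apply_univ]
    simp⟩
  have hempty : ⋂ n, E n = ∅ := by
    refine Set.eq_empty_of_forall_notMem fun s hs => ?_
    obtain ⟨n, hn⟩ := exists_nat_gt (f s)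
    have := Set.mem_iInter.1 hs n
    exact absurd this (not_lt.2 hn.le)
  rw [hempty, measure_empty] at lim
  have low : ∀ n, ENNReal.ofReal α / 2 ≤ μ (E n) := by
    intro n
    have hsub : Set.Ioo 0 (t n) ⊆ (E n ∩ Set.Ioo 0 β) ∪ (fun s => t n - s) ⁻¹' (E n ∩ Set.Ioo 0 β) := by
      intro s hs
      by_cases h1 : (n : ℝ) < f s
      · exact Or.inl ⟨h1, hs.1, hs.2.trans_le (ht1 n).2⟩
      · refine Or.inr ⟨?_, by linarith [hs.2], by linarith [hs.1, (ht1 n).2]⟩
        show (n : ℝ) < f (t n - s)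
        by_contra h2
        have h3 := hf s (t n - s) hs.1 (by linarith [hs.2])
        rw [add_sub_cancel] at h3
        have h4 := ht2 n
        push Not at h1 h2
        have h5 := mul_le_mul h1 h2 (f0 _) (Nat.cast_nonneg n)
        nlinarith
    have hmeas := (measure_mono hsub).trans (measure_union_le (μ := volume) _ _)
    have hpre : volume ((fun s => t n - s) ⁻¹' (E n ∩ Set.Ioo 0 β)) =
        volume (E n ∩ Set.Ioo 0 β) :=
      (Measure.measurePreserving_sub_left volume (t n)).measure_preimage_emb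
        (Homeomorph.subLeft (t n)).measurableEmbedding _
    rw [hpre, Real.volume_Ioo, sub_zero] at hmeas
    have h6 : μ (E n) = volume (E n ∩ Set.Ioo 0 β) := by
      rw [hμ, Measure.restrict_apply' measurableSet_Ioo]
    rw [h6]
    refine ENNReal.div_le_of_le_mul ?_
    rw [mul_two]
    exact (ENNReal.ofReal_le_ofReal (ht1 n).1).trans hmeas
  have := ge_of_tendsto' lim low
  have hpos : 0 < ENNReal.ofReal α / 2 := by
    refine ENNReal.div_pos (by simpa using hα) (by simp)
  exact absurd this (not_le.2 hpos)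

/-- **Main theorem.** There is a commutative radical Banach algebra `R` (every spectrum in the
unitization is `⊆ {0}`) with a real semigroup `a`, `a t ≠ 0` for all `t > 0` and `a 1` in the closure
of `a 1 * a 1 * R`, such that
(1) every real semigroup in `R` whose norm is Lebesgue measurable on `(0,∞)` is zero;
(2) every semigroup in `R` indexed by the positive rationals and bounded on compact intervals of
`(0,∞)` is zero;
(3) every real semigroup in `R` which is bounded on some interval `[α, β]`, `0 < α < β`, is eventually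
zero. -/
theorem result : ∃ (R : Type) (_ : NonUnitalNormedCommRing R) (_ : NormedSpace ℂ R)
    (_ : IsScalarTower ℂ R R) (_ : SMulCommClass ℂ R R) (_ : CompleteSpace R),
    (∀ x : R, spectrum ℂ (Unitization.inr x : Unitization ℂ R) ⊆ {0}) ∧
    (∃ a : ℝ → R, (∀ s t : ℝ, 0 < s → 0 < t → a (s + t) = a s * a t) ∧ (∀ t, 0 < t → a t ≠ 0) ∧
      a 1 ∈ closure (Set.range fun y => a 1 * a 1 * y)) ∧
    (∀ b : ℝ → R, (∀ s t : ℝ, 0 < s → 0 < t → b (s + t) = b s * b t) →
      AEMeasurable (fun t => ‖b t‖) (volume.restrict (Set.Ioi 0)) → ∀ t, 0 < t → b t = 0) ∧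
    (∀ b : ℚ → R, (∀ s t : ℚ, 0 < s → 0 < t → b (s + t) = b s * b t) →
      (∀ α β : ℚ, 0 < α → ∃ M : ℝ, ∀ t ∈ Set.Icc α β, ‖b t‖ ≤ M) → ∀ t, 0 < t → b t = 0) ∧
    ∀ b : ℝ → R, (∀ s t : ℝ, 0 < s → 0 < t → b (s + t) = b s * b t) →
      ∀ α β M : ℝ, 0 < α → α < β → (∀ t ∈ Set.Icc α β, ‖b t‖ ≤ M) →
        ∃ T, 0 < T ∧ ∀ t, T ≤ t → b t = 0 := by
  obtain ⟨B, _, _, _, δ, c, h⟩ := exists_pkg
  obtain ⟨a, h0, h1, h2, h3⟩ := h.exists_real
  let _ : NormedSpace ℂ h.R := { norm_smul_le := fun z x => norm_smul_le z x.1 }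
  refine ⟨h.R, inferInstance, inferInstance, inferInstance, inferInstance,
    h.R_closed.completeSpace_coe, fun x => by
      rw [← Unitization.quasispectrum_eq_spectrum_inr]; exact h.quasispec x,
    ⟨fun t => ⟨a t, h0 t⟩, fun s t hs ht => Subtype.ext (h1 s t hs ht),
      fun t ht e => h2 t ht (congrArg Subtype.val e), ?_⟩, fun b hb hm t ht => ?_,
    fun b hb hbd t ht => ?_, fun b hb α β M hα hαβ hM => ?_⟩
  · rw [Metric.mem_closure_iff] at h3 ⊢
    intro ε hε
    obtain ⟨_, ⟨y, hy, rfl⟩, hd⟩ := h3 ε hε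
    exact ⟨_, ⟨⟨y, hy⟩, rfl⟩, hd⟩
  · obtain ⟨M, hM⟩ := bdd_of_meas (fun t => ‖b t‖) (fun t => norm_nonneg _)
      (fun s t hs ht => by
        simp only [hb s t hs ht]
        exact norm_mul_le _ _) hm (t / 5) (4 * (t / 5)) (by positivity)
    have := no_bdd_real h (fun t => b t) (fun t => (b t).2)
      (fun s t hs ht => congrArg Subtype.val (hb s t hs ht)) (t / 5) (by positivity) M hM
    rw [show 5 * (t / 5) = t by ring] at this
    exact Subtype.ext this
  · by_contra hne
    obtain ⟨M, hM⟩ := hbd (t / 5) (4 * (t / 5)) (by positivity)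
    refine no_bdd h (fun t => b t) (fun t => (b t).2)
      (fun s t hs ht => congrArg Subtype.val (hb s t hs ht)) (t / 5) (by positivity) ?_ M hM
    rw [show 5 * (t / 5) = t by ring]
    exact fun e => hne (Subtype.ext e)
  · -- bounded on some interval
    obtain ⟨K, hK⟩ := exists_nat_gt (α / (β - α))
    have hK' : α < K * (β - α) := by rwa [div_lt_iff₀ (by linarith)] at hK
    have hKpos : 0 < K := by
      rcases Nat.eq_zero_or_pos K with h | h
      · rw [h] at hK'
        simp at hK'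
        linarith
      · exact h
    have hpow : ∀ k : ℕ, ∀ t ∈ Set.Icc α β, ‖b ((k + 1 : ℕ) * t)‖ ≤ (max M 1) ^ (k + 1) := by
      intro k t ht
      induction k with
      | zero => simpa using Or.inl (hM t ht)
      | succ k ih =>
        have ht0 : 0 < t := hα.trans_le ht.1
        have e : ((k + 1 + 1 : ℕ) : ℝ) * t = (k + 1 : ℕ) * t + t := by push_cast; ring
        rw [e, hb _ _ (by positivity) ht0, pow_succ]
        refine (norm_mul_le _ _).trans (mul_le_mul ih ((hM t ht).trans (le_max_left _ _))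
          (norm_nonneg _) (by positivity))
    set τ : ℝ := K * α with hτ
    have hτ0 : 0 < τ := by positivity
    have hbd : ∀ t ∈ Set.Icc τ (4 * τ), ‖b t‖ ≤ (max M 1) ^ (4 * K) := by
      intro t ht
      have ht0 : 0 < t := hτ0.trans_le ht.1
      set k := ⌊t / α⌋₊ with hk
      have k1 : (k : ℝ) ≤ t / α := Nat.floor_le (by positivity)
      have k2 : t / α < k + 1 := Nat.lt_floor_add_one _
      rw [le_div_iff₀ hα] at k1
      rw [div_lt_iff₀ hα] at k2
      have k3 : K ≤ k := Nat.le_floor (by rw [le_div_iff₀ hα]; exact ht.1)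
      have k4 : k ≤ 4 * K := by
        have : (k : ℝ) * α ≤ (4 * K : ℕ) * α := by
          push_cast
          linarith [ht.2]
        exact_mod_cast le_of_mul_le_mul_right this hα
      clear_value k
      obtain ⟨j, rfl⟩ : ∃ j, k = j + 1 := ⟨k - 1, by omega⟩
      have kpos : (0 : ℝ) < ((j + 1 : ℕ) : ℝ) := by positivity
      have := hpow j (t / (j + 1 : ℕ)) ⟨by rw [le_div_iff₀ kpos]; linarith, by
        rw [div_le_iff₀ kpos]
        have h5 : (K : ℝ) ≤ (j + 1 : ℕ) := by exact_mod_cast k3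
        have h6 : (K : ℝ) * (β - α) ≤ (j + 1 : ℕ) * (β - α) :=
          mul_le_mul_of_nonneg_right h5 (by linarith)
        linarith⟩
      rw [mul_div_cancel₀ _ kpos.ne'] at this
      exact this.trans (pow_le_pow_right₀ (le_max_right _ _) k4)
    have hz := no_bdd_real h (fun t => b t) (fun t => (b t).2)
      (fun s t hs ht => congrArg Subtype.val (hb s t hs ht)) τ hτ0 _ hbd
    have hz' : b (5 * τ) = 0 := Subtype.ext hz
    refine ⟨5 * τ, by positivity, fun t ht => ?_⟩
    rcases ht.eq_or_lt with rfl | ht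
    · exact hz'
    · rw [show t = 5 * τ + (t - 5 * τ) by ring, hb _ _ (by positivity) (by linarith), hz', zero_mul]

end Pool.Agent.Results.MP_3d411c_an.NormMeasurable
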